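import Pool.Agent.Lib.MP_059e53_co.FourSym

/-!
# Minimizers with four symbols, for every order

For every `h ≥ 1` the explicit `h × h` matrix `fourMat h` with the four symbols `0, 1, 2, 3` (first
row `0, 1, .., 1`, the other rows with the two symbols `2, 3` only) is a minimizer: an `n × n` matrix
over any symbols has at most `(n / h) ^ (2 h)` sub-matrices equal to it, for every `n`, and
the maximal density tends to `(h!)² / h^(2h)`.
-/

namespace Pool.Agent.Results.MP_059e53_co.FourSymbols

open Pool.Agent.Lib.MP059e53

theorem result (h : ℕ) (hh : 1 ≤ h) :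
    (∀ i j, fourMat h i j < 4) ∧
    (∀ (n : ℕ) (M : Matrix (Fin n) (Fin n) ℕ),
      copies (fourMat h) M * h ^ (2 * h) ≤ n ^ (2 * h)) ∧
    IsMinimizer (fourMat h) :=
  ⟨fun i j => fourMat_lt i j, fun _ M => copies_le M,
    isMinimizer_of_le hh (fourMat h) fun _ M => copies_le M⟩

end Pool.Agent.Results.MP_059e53_co.FourSymbols
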