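import Pool.Agent.Lib.MP_059e53_co.Limit

/-!
# MP_059e53_co: the permutation matrices of order three are minimizers

Every `3 × 3` permutation matrix `H` satisfies `f(H) = (3!)² / 3⁶ = 4/81`. So Q1 holds for `h = 3`.

Symbols are natural numbers (every finite symbol set is a subset of `ℕ`). The definitions `cnt`,
`dens`, `fn`, `IsMinimizer`, `pm` are in `Pool/Agent/Lib/MP_059e53_co/Count.lean`.

Proof. Let `L` be the number of the triples of rows `x, y, z` and of columns `s, t, u` of an `n × n`
matrix such that the entries at `(x,s), (y,t), (z,u)` are `1` and the six other ones are not. For a
pair `(x, s)` with entry `1` let `m` be the number of the entries in the rows outside `s` and the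
columns outside `x`, and `e` the number of the ones among them. Counting the pairs `(y,t), (z,u)`:
`8 q ≤ m²` (Hamming distances of columns) and `4 q ≤ m e` (number of paths with three edges in a
bipartite graph), so `24 q ≤ m² + 4 m e`. The sum of `m² + 4 m e` over the ones is at most
`(16/81) n⁶`: for each column `s` there is an inequality with a linear term (in the indicator function
of `s`) which sums up to zero over the columns. So `L ≤ (2/243) n⁶`, and `6 · (number of copies) ≤ L`.
-/

set_option autoImplicit false

namespace Pool.Agent.Results.MP_059e53_co.OrderThree

open Pool.Agent.Lib.MP059e53

theorem result : ∀ π : Equiv.Perm (Fin 3), IsMinimizer (pm π) := main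

end Pool.Agent.Results.MP_059e53_co.OrderThree
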